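import Pool.Agent.Work.MP_2a6590_nt.H97.Tail

/-!
# The asymptotic lower bound
-/

namespace Pool.Agent.Work.MP_2a6590_nt.H97

open Finset

/-! ### elementary inequalities -/

theorem pointwise {K x m l : ℝ} (hK : 0 ≤ K) (hx : 0 < x) (hm : 0 < m) (h : K + x ≤ m) :
    l * K - (1 - l * m) ^ 2 / (4 * m) * x ≤ K / x := by
  rw [le_div_iff₀ hx]
  have key : 0 ≤ K * (1 - l * x) + (1 - l * m) ^ 2 / (4 * m) * x ^ 2 := by
    rcases le_total 0 (1 - l * x) with h1 | h1
    · positivity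
    · have h2 : (m - x) * (1 - l * x) ≤ K * (1 - l * x) :=
        mul_le_mul_of_nonpos_right (by linarith) h1
      have h3 : (m - x) * (1 - l * x) + (1 - l * m) ^ 2 / (4 * m) * x ^ 2 =
          ((1 + l * m) * x - 2 * m) ^ 2 / (4 * m) := by
        field_simp
        ring
      have h4 : 0 ≤ ((1 + l * m) * x - 2 * m) ^ 2 / (4 * m) := by positivity
      linarith
  nlinarith [key]

theorem rx_le {n s x d : ℝ} (hn : 0 < n) (hs1 : 1 ≤ s) (hx : 0 < x) (hxm : x ≤ n - s + 1)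
    (hd : 0 < d) (hd8 : d ≤ 1 / 8) (hnd : 1 ≤ d * n) :
    (1 - 16 / (3 * n) * (n - s + 1)) ^ 2 / (4 * (n - s + 1)) * x ≤
      (25 / 18 + 42 * d) / n * x + 5 * ((n - 2 * s) ^ 2 / (4 * d ^ 2 * n ^ 2)) := by
  have hm : 0 < n - s + 1 := lt_of_lt_of_le hx hxm
  set m := n - s + 1 with hmdef
  rcases le_or_gt (|n - 2 * s|) (2 * d * n) with h | h
  · have h5 : 0 ≤ 5 * ((n - 2 * s) ^ 2 / (4 * d ^ 2 * n ^ 2)) := by positivity
    have h6 : (1 - 16 / (3 * n) * m) ^ 2 / (4 * m) ≤ (25 / 18 + 42 * d) / n := by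
      rw [div_le_div_iff₀ (by positivity) hn]
      set w := m / n - 1 / 2 with hw
      have hmw : m = n * (1 / 2 + w) := by
        rw [hw]; field_simp; ring
      have hw1 : |w| ≤ 2 * d := by
        have e : w = ((n - 2 * s) / 2 + 1) / n := by
          rw [hw, hmdef]; field_simp; ring
        rw [e, abs_div, abs_of_pos hn, div_le_iff₀ hn]
        calc |(n - 2 * s) / 2 + 1| ≤ |(n - 2 * s) / 2| + |1| := abs_add_le _ _
          _ = |n - 2 * s| / 2 + 1 := by rw [abs_div]; norm_num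
          _ ≤ 2 * d * n / 2 + 1 := by linarith
          _ ≤ 2 * d * n := by linarith
      obtain ⟨hw2, hw3⟩ := abs_le.mp hw1
      have e1 : 16 / (3 * n) * m = 8 / 3 + 16 / 3 * w := by
        rw [hmw]; field_simp; ring
      rw [e1, hmw]
      have e2 : (1 - (8 / 3 + 16 / 3 * w)) ^ 2 ≤ (25 / 18 + 42 * d) * (4 * (1 / 2 + w)) := by
        nlinarith [mul_nonneg (show (0:ℝ) ≤ 2 * d - w by linarith) (show (0:ℝ) ≤ w + 2 * d by linarith),
          mul_nonneg hd.le (show (0:ℝ) ≤ w + 2 * d by linarith), mul_nonneg hd.le (show (0:ℝ) ≤ 1 / 8 - d by linarith)]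
      calc (1 - (8 / 3 + 16 / 3 * w)) ^ 2 * n ≤ ((25 / 18 + 42 * d) * (4 * (1 / 2 + w))) * n :=
            mul_le_mul_of_nonneg_right e2 hn.le
        _ = _ := by ring
    have h7 := mul_le_mul_of_nonneg_right h6 hx.le
    linarith
  · have h8 : 1 ≤ (n - 2 * s) ^ 2 / (4 * d ^ 2 * n ^ 2) := by
      rw [one_le_div (by positivity)]
      have h9 : (2 * d * n) ^ 2 ≤ |n - 2 * s| ^ 2 :=
        pow_le_pow_left₀ (by positivity) h.le 2
      rw [sq_abs] at h9
      calc 4 * d ^ 2 * n ^ 2 = (2 * d * n) ^ 2 := by ring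
        _ ≤ _ := h9
    have h10 : (1 - 16 / (3 * n) * m) ^ 2 / (4 * m) * x ≤ 5 := by
      have h11 : (1 - 16 / (3 * n) * m) ^ 2 / (4 * m) * x ≤
          (1 - 16 / (3 * n) * m) ^ 2 / (4 * m) * m :=
        mul_le_mul_of_nonneg_left hxm (by positivity)
      have h12 : (1 - 16 / (3 * n) * m) ^ 2 / (4 * m) * m = (1 - 16 / (3 * n) * m) ^ 2 / 4 := by
        field_simp
      have h13 : 0 ≤ 16 / (3 * n) * m := by positivity
      have h14 : 16 / (3 * n) * m ≤ 16 / 3 := by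
        rw [div_mul_eq_mul_div, div_le_div_iff₀ (by positivity) (by norm_num)]
        nlinarith
      have h15 : (1 - 16 / (3 * n) * m) ^ 2 ≤ 20 := by nlinarith
      linarith
    have h16 : 0 ≤ (25 / 18 + 42 * d) / n * x := by positivity
    linarith

/-! ### sums over all sets -/

section

variable {ι : Type*} [Fintype ι] [DecidableEq ι]

/-- number of triples, by the indices -/
theorem card_Tr : (Tr ι).card = Fintype.card ι * (Fintype.card ι - 1) * 2 ^ (Fintype.card ι - 2) := by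
  have h1 : (Tr ι).card = ∑ i : ι, ∑ b : ι, (univ.filter fun S : Finset ι => i ∈ S ∧ b ∉ S).card := by
    unfold Tr
    rw [Finset.card_filter, Fintype.sum_prod_type]
    simp only [Fintype.sum_prod_type]
    rw [Finset.sum_comm]
    refine Finset.sum_congr rfl fun i _ => ?_
    rw [Finset.sum_comm]
    refine Finset.sum_congr rfl fun b _ => ?_
    rw [Finset.card_filter]
  rw [h1]
  have h2 : ∀ i : ι, ∑ b : ι, (univ.filter fun S : Finset ι => i ∈ S ∧ b ∉ S).card =
      (Fintype.card ι - 1) * 2 ^ (Fintype.card ι - 2) := by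
    intro i
    rw [← Finset.add_sum_erase _ _ (Finset.mem_univ i)]
    have h3 : (univ.filter fun S : Finset ι => i ∈ S ∧ i ∉ S).card = 0 := by
      rw [Finset.card_eq_zero, Finset.filter_eq_empty_iff]
      rintro S - ⟨h, h'⟩
      exact h' h
    rw [h3, zero_add, Finset.sum_congr rfl fun b hb => card_ib (Finset.ne_of_mem_erase hb).symm,
      Finset.sum_const, Finset.card_erase_of_mem (Finset.mem_univ i), Finset.card_univ, smul_eq_mul]
  rw [Finset.sum_congr rfl fun i _ => h2 i, Finset.sum_const, Finset.card_univ, smul_eq_mul]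
  ring

/-- number of triples, by the sets -/
theorem card_Tr' : (Tr ι).card = ∑ S : Finset ι, S.card * (Fintype.card ι - S.card) := by
  unfold Tr
  rw [Finset.card_filter, Fintype.sum_prod_type]
  refine Finset.sum_congr rfl fun S _ => ?_
  rw [← Finset.card_filter]
  have : (univ.filter fun q : ι × ι => q.1 ∈ S ∧ q.2 ∉ S) = S ×ˢ Sᶜ := by
    ext q
    simp
  rw [this, Finset.card_product, Finset.card_compl]

theorem card_Pr : (Pr ι).card = Fintype.card ι * 2 ^ (Fintype.card ι - 1) := by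
  unfold Pr
  rw [Finset.card_filter, Fintype.sum_prod_type, Finset.sum_comm]
  have h2 : ∀ i : ι, ∑ S : Finset ι, (if i ∈ S then 1 else 0) = 2 ^ (Fintype.card ι - 1) := by
    intro i
    rw [← Finset.card_filter]
    have h1 : (univ.filter fun S : Finset ι => i ∈ S) = Finset.Icc {i} univ := by
      ext S
      rw [Finset.mem_filter, Finset.mem_Icc]
      simp [Finset.singleton_subset_iff]
    rw [h1, Finset.card_Icc_finset (Finset.subset_univ _), Finset.card_univ, Finset.card_singleton]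
  rw [Finset.sum_congr rfl fun i _ => h2 i, Finset.sum_const, Finset.card_univ, smul_eq_mul]

/-- variance of the size of a random set -/
theorem sum_sq (hn : 2 ≤ Fintype.card ι) :
    ∑ S : Finset ι, ((Fintype.card ι : ℝ) - 2 * (S.card : ℝ)) ^ 2 =
      (Fintype.card ι : ℝ) * 2 ^ Fintype.card ι := by
  have h1 : ∀ S : Finset ι, ((Fintype.card ι : ℝ) - 2 * (S.card : ℝ)) ^ 2 =
      (Fintype.card ι : ℝ) ^ 2 - 4 * ((S.card * (Fintype.card ι - S.card) : ℕ) : ℝ) := by
    intro S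
    rw [Nat.cast_mul, Nat.cast_sub (Finset.card_le_univ S)]
    ring
  rw [Finset.sum_congr rfl fun S _ => h1 S, Finset.sum_sub_distrib, ← Finset.mul_sum,
    ← Nat.cast_sum, ← card_Tr', card_Tr, Finset.sum_const, nsmul_eq_mul, Finset.card_univ,
    Fintype.card_finset]
  obtain ⟨k, hk⟩ : ∃ k, Fintype.card ι = k + 2 := ⟨Fintype.card ι - 2, by omega⟩
  rw [hk]
  rw [show k + 2 - 1 = k + 1 from rfl, show k + 2 - 2 = k from rfl, pow_add]
  push_cast
  ring

theorem sum_Pr_sq (hn : 2 ≤ Fintype.card ι) :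
    ∑ p ∈ Pr ι, ((Fintype.card ι : ℝ) - 2 * p.1.card) ^ 2 ≤
      (Fintype.card ι : ℝ) ^ 2 * 2 ^ Fintype.card ι := by
  have h1 : ∑ p ∈ Pr ι, ((Fintype.card ι : ℝ) - 2 * p.1.card) ^ 2 =
      ∑ S : Finset ι, (S.card : ℝ) * ((Fintype.card ι : ℝ) - 2 * S.card) ^ 2 := by
    unfold Pr
    rw [Finset.sum_filter, Fintype.sum_prod_type]
    refine Finset.sum_congr rfl fun S _ => ?_
    simp only
    rw [Finset.sum_ite_mem, Finset.univ_inter, Finset.sum_const, nsmul_eq_mul]
  rw [h1]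
  calc ∑ S : Finset ι, (S.card : ℝ) * ((Fintype.card ι : ℝ) - 2 * S.card) ^ 2 ≤
      ∑ S : Finset ι, (Fintype.card ι : ℝ) * ((Fintype.card ι : ℝ) - 2 * S.card) ^ 2 := by
        refine Finset.sum_le_sum fun S _ => mul_le_mul_of_nonneg_right ?_ (sq_nonneg _)
        exact_mod_cast Finset.card_le_univ S
    _ = (Fintype.card ι : ℝ) ^ 2 * 2 ^ Fintype.card ι := by
        rw [← Finset.mul_sum, sum_sq hn]
        ring

end

/-! ### the lower bound -/

section

variable {ι G : Type*} [Fintype ι] [DecidableEq ι] [AddCommGroup G] [Fintype G] [DecidableEq G]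

theorem lower {a : ι → G} (hV : Vd a)
    (h4 : ∀ i, (univ.filter fun b => 4 • a b = 4 • a i).card ≤ 4) (hn : 2 ≤ Fintype.card ι)
    {d : ℝ} (hd : 0 < d) (hd8 : d ≤ 1 / 8) (hnd : 1 ≤ d * Fintype.card ι) :
    (151 / 192 - 4 * d - (54 + 5 / d ^ 2) / (4 * Fintype.card ι)) * 2 ^ Fintype.card ι ≤
      Fintype.card G := by
  set n : ℝ := (Fintype.card ι : ℝ) with hndef
  set L : ℝ := 2 ^ (Fintype.card ι - 2) with hL
  have hn0 : 0 < n := by
    rw [hndef]
    have : 0 < Fintype.card ι := by omega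
    exact_mod_cast this
  have hLpos : 0 < L := by positivity
  have hL1 : (2 : ℝ) ^ (Fintype.card ι - 1) = 2 * L := by
    rw [hL, ← pow_succ']
    congr 1
    omega
  have hL2 : (2 : ℝ) ^ Fintype.card ι = 4 * L := by
    rw [hL, show (4 : ℝ) = 2 ^ 2 by norm_num, ← pow_add]
    congr 1
    omega
  set SK : ℝ := ∑ p ∈ Pr ι, ((Ks a p.1 p.2).card : ℝ) with hSK
  set SH : ℝ := ∑ p ∈ Pr ι, ((Hs a p.1 p.2).card : ℝ) with hSH
  -- (A)
  have hA := count_all hV
  rw [hL1] at hA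
  -- (B)
  have hB : n * (n - 1) * L ≤ 2 * SK + SH := by
    have h := card_dual hV
    rw [card_Tr] at h
    have h' : ((Fintype.card ι * (Fintype.card ι - 1) * 2 ^ (Fintype.card ι - 2) : ℕ) : ℝ) ≤
        ((2 * ∑ p ∈ Pr ι, (Ks a p.1 p.2).card + ∑ p ∈ Pr ι, (Hs a p.1 p.2).card : ℕ) : ℝ) := by
      exact_mod_cast h
    push_cast [Nat.cast_sub (show 1 ≤ Fintype.card ι by omega)] at h'
    exact h'
  -- (C)
  have hC : SH ≤ (3 / 8 * n ^ 2 + 4 * n) * L := by
    have h := sum_Hs_le hV h4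
    have h' : (((∑ p ∈ Pr ι, (Hs a p.1 p.2).card : ℕ) : ℚ) : ℝ) ≤
        (((3 / 8 * (Fintype.card ι : ℚ) ^ 2 + 4 * Fintype.card ι) * 2 ^ (Fintype.card ι - 2) : ℚ) : ℝ) := by
      exact_mod_cast h
    push_cast at h'
    exact h'
  -- (D)
  have hD : 16 / (3 * n) * SK - (25 / 18 + 42 * d) / n * (2 * n * L + SH) - 5 * L / d ^ 2 ≤
      ∑ p ∈ Pr ι, ((Ks a p.1 p.2).card : ℝ) / (1 + (Hs a p.1 p.2).card) := by
    have h1 : ∀ p ∈ Pr ι, 16 / (3 * n) * ((Ks a p.1 p.2).card : ℝ) -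
        (25 / 18 + 42 * d) / n * (1 + (Hs a p.1 p.2).card) -
        5 / (4 * d ^ 2 * n ^ 2) * (n - 2 * p.1.card) ^ 2 ≤
        ((Ks a p.1 p.2).card : ℝ) / (1 + (Hs a p.1 p.2).card) := by
      intro p hp
      rw [mem_Pr] at hp
      have h2 := three_disjoint a hp
      have h2' : ((Ks a p.1 p.2).card : ℝ) + (Hs a p.1 p.2).card + p.1.card ≤ n := by
        rw [hndef]; exact_mod_cast h2
      have hs1 : (1 : ℝ) ≤ p.1.card := by
        have : 1 ≤ p.1.card := Finset.card_pos.mpr ⟨_, hp⟩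
        exact_mod_cast this
      have hx : (0 : ℝ) < 1 + (Hs a p.1 p.2).card := by positivity
      have hK : (0 : ℝ) ≤ (Ks a p.1 p.2).card := Nat.cast_nonneg _
      have hxm : (1 : ℝ) + (Hs a p.1 p.2).card ≤ n - p.1.card + 1 := by linarith
      have h3 := pointwise (l := 16 / (3 * n)) hK hx (lt_of_lt_of_le hx hxm)
        (show ((Ks a p.1 p.2).card : ℝ) + (1 + (Hs a p.1 p.2).card) ≤ n - p.1.card + 1 by linarith)
      have h4 := rx_le hn0 hs1 hx hxm hd hd8 hnd
      have h5 : 5 * ((n - 2 * (p.1.card : ℝ)) ^ 2 / (4 * d ^ 2 * n ^ 2)) =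
          5 / (4 * d ^ 2 * n ^ 2) * (n - 2 * p.1.card) ^ 2 := by ring
      linarith
    have h2 := Finset.sum_le_sum h1
    rw [Finset.sum_sub_distrib, Finset.sum_sub_distrib, ← Finset.mul_sum, ← Finset.mul_sum,
      ← Finset.mul_sum, Finset.sum_add_distrib, Finset.sum_const, nsmul_eq_mul, mul_one,
      card_Pr] at h2
    push_cast at h2
    rw [hL1] at h2
    have h3 := sum_Pr_sq hn
    rw [hL2, ← hndef] at h3
    have h4 : 5 / (4 * d ^ 2 * n ^ 2) * ∑ p ∈ Pr ι, (n - 2 * p.1.card) ^ 2 ≤ 5 * L / d ^ 2 := by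
      calc 5 / (4 * d ^ 2 * n ^ 2) * ∑ p ∈ Pr ι, (n - 2 * p.1.card) ^ 2 ≤
          5 / (4 * d ^ 2 * n ^ 2) * (n ^ 2 * (4 * L)) :=
            mul_le_mul_of_nonneg_left h3 (by positivity)
        _ = 5 * L / d ^ 2 := by field_simp
    have h5 : (25 / 18 + 42 * d) / n * (2 * n * L + SH) =
        (25 / 18 + 42 * d) / n * (n * (2 * L) + SH) := by ring
    rw [h5]
    linarith
  -- conclusion
  rw [hL2]
  set N : ℝ := (Fintype.card G : ℝ) with hN
  set R : ℝ := 25 / 18 + 42 * d with hR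
  have hR0 : 0 < R := by positivity
  have e1 : n * (2 * L) + (16 / (3 * n) * SK - R / n * (2 * n * L + SH) - 5 * L / d ^ 2) ≤
      n * N := by linarith
  have e2 : 16 / (3 * n) * ((n * (n - 1) * L - SH) / 2) ≤ 16 / (3 * n) * SK :=
    mul_le_mul_of_nonneg_left (by linarith) (by positivity)
  have e3 : (8 / 3 + R) / n * SH ≤ (8 / 3 + R) / n * ((3 / 8 * n ^ 2 + 4 * n) * L) :=
    mul_le_mul_of_nonneg_left hC (by positivity)
  have e4 : 16 / (3 * n) * ((n * (n - 1) * L - SH) / 2) - R / n * (2 * n * L + SH) =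
      8 / 3 * (n - 1) * L - 2 * R * L - (8 / 3 + R) / n * SH := by
    field_simp
    ring
  have e5 : (8 / 3 + R) / n * ((3 / 8 * n ^ 2 + 4 * n) * L) =
      (8 / 3 + R) * (3 / 8 * n + 4) * L := by
    field_simp
  have e6 : n * (2 * L) + (8 / 3 * (n - 1) * L - 2 * R * L - (8 / 3 + R) * (3 / 8 * n + 4) * L) -
      5 * L / d ^ 2 ≤ n * N := by
    have : n * (2 * L) + (16 / (3 * n) * ((n * (n - 1) * L - SH) / 2) -
        R / n * (2 * n * L + SH)) - 5 * L / d ^ 2 ≤ n * N := by linarith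
    rw [e4] at this
    rw [e5] at e3
    linarith
  have e7 : n * ((151 / 192 - 4 * d - (54 + 5 / d ^ 2) / (4 * n)) * (4 * L)) =
      n * (151 / 48 - 16 * d) * L - (54 + 5 / d ^ 2) * L := by
    field_simp
    ring
  have e8 : n * ((151 / 192 - 4 * d - (54 + 5 / d ^ 2) / (4 * n)) * (4 * L)) ≤ n * N := by
    rw [e7]
    refine le_trans ?_ e6
    have e9 : 5 * L / d ^ 2 = 5 / d ^ 2 * L := by ring
    rw [e9, hR]
    have e10 : 0 ≤ (n * (1 / 4 * d)) * L := by positivity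
    have e11 : 0 ≤ (1 / 8 - d) * L := mul_nonneg (by linarith) hLpos.le
    nlinarith [e10, e11, hLpos]
  exact le_of_mul_le_mul_left e8 hn0

end

end Pool.Agent.Work.MP_2a6590_nt.H97
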