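import Pool.Agent.Work.MP_2a6590_nt.H97.Boll

/-!
# Valid systems: uniqueness, levels, the basic counting inequality, duality
-/

namespace Pool.Agent.Work.MP_2a6590_nt.H97

open Finset

variable {ι G : Type*} [Fintype ι] [DecidableEq ι] [AddCommGroup G]

/-- The value of a multiplicity function. -/
def val (a : ι → G) (m : ι → ℕ) : G := ∑ i, m i • a i

/-- The sum over a set. -/
def sg (a : ι → G) (S : Finset ι) : G := ∑ i ∈ S, a i

/-- The indicator function. -/
def ind (S : Finset ι) : ι → ℕ := fun i => if i ∈ S then 1 else 0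

/-- One unit at `i`. -/
def un (i : ι) : ι → ℕ := fun j => if j = i then 1 else 0

/-- The system is valid. -/
def Vd (a : ι → G) : Prop := ∀ m : ι → ℕ, ∑ i, m i = Fintype.card ι → val a m = sg a univ →
  ∀ i, m i = 1

/-- `g` is a sum of `t` elements with repetitions. -/
def Mem (a : ι → G) (t : ℕ) (g : G) : Prop := ∃ m : ι → ℕ, ∑ i, m i = t ∧ val a m = g

omit [DecidableEq ι] in
theorem val_add (a : ι → G) (m m' : ι → ℕ) : val a (m + m') = val a m + val a m' := by
  unfold val
  rw [← Finset.sum_add_distrib]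
  refine Finset.sum_congr rfl fun i _ => ?_
  rw [Pi.add_apply, add_smul]

theorem val_ind (a : ι → G) (S : Finset ι) : val a (ind S) = sg a S := by
  unfold val ind sg
  simp only [ite_smul, one_smul, zero_smul]
  rw [Finset.sum_ite_mem, Finset.univ_inter]

theorem sum_ind (S : Finset ι) : ∑ i, ind S i = S.card := by
  unfold ind
  rw [Finset.sum_ite_mem, Finset.univ_inter, Finset.sum_const, smul_eq_mul, mul_one]

theorem val_un (a : ι → G) (i : ι) : val a (un i) = a i := by
  unfold val un
  simp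

theorem sum_un (i : ι) : ∑ j, un i j = 1 := by
  unfold un
  simp

theorem ind_mem {S : Finset ι} {i : ι} (h : i ∈ S) : ind S i = 1 := by
  unfold ind; rw [if_pos h]

theorem ind_notMem {S : Finset ι} {i : ι} (h : i ∉ S) : ind S i = 0 := by
  unfold ind; rw [if_neg h]

omit [Fintype ι] in
theorem un_self (i : ι) : un i i = 1 := by unfold un; rw [if_pos rfl]

omit [Fintype ι] in
theorem sg_insert (a : ι → G) {S : Finset ι} {i : ι} (h : i ∉ S) :
    sg a (insert i S) = a i + sg a S := by
  unfold sg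
  rw [Finset.sum_insert h]

omit [Fintype ι] in
theorem sg_erase (a : ι → G) {S : Finset ι} {i : ι} (h : i ∈ S) :
    sg a S = a i + sg a (S.erase i) := by
  rw [← sg_insert a (Finset.notMem_erase i S), Finset.insert_erase h]

omit [Fintype ι] in
theorem sg_union (a : ι → G) {S T : Finset ι} (h : Disjoint S T) :
    sg a (S ∪ T) = sg a S + sg a T := by
  unfold sg
  rw [Finset.sum_union h]

theorem sg_compl (a : ι → G) (S : Finset ι) : sg a S + sg a Sᶜ = sg a univ := by
  unfold sg
  rw [Finset.sum_add_sum_compl]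

section

variable {a : ι → G} (hV : Vd a)

include hV

/-- **Uniqueness**: a sum of distinct elements has no other representation of the same length. -/
theorem uniq (T : Finset ι) (m : ι → ℕ) (hm : ∑ i, m i = T.card) (hs : val a m = sg a T) :
    m = ind T := by
  have h := hV (m + ind Tᶜ) ?_ ?_
  · funext i
    have h1 := h i
    rw [Pi.add_apply] at h1
    by_cases hi : i ∈ T
    · rw [ind_notMem (by simpa using hi)] at h1
      rw [ind_mem hi]
      omega
    · rw [ind_mem (by simpa using hi)] at h1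
      rw [ind_notMem hi]
      omega
  · simp only [Pi.add_apply]
    rw [Finset.sum_add_distrib, hm, sum_ind, Finset.card_add_card_compl]
  · rw [val_add, hs, val_ind, sg_compl]

theorem sg_inj {S T : Finset ι} (hc : S.card = T.card) (hs : sg a S = sg a T) : S = T := by
  have h := uniq hV T (ind S) (by rw [sum_ind, hc]) (by rw [val_ind, hs])
  ext i
  have h1 := congrFun h i
  by_cases hS : i ∈ S
  · rw [ind_mem hS] at h1
    constructor
    · intro _
      by_contra hT
      rw [ind_notMem hT] at h1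
      omega
    · intro _; exact hS
  · rw [ind_notMem hS] at h1
    constructor
    · intro h2; exact absurd h2 hS
    · intro hT
      rw [ind_mem hT] at h1
      omega

/-- A sum with a repeated element is not a sum of distinct elements. -/
theorem not_sq {S T : Finset ι} {i : ι} (hi : i ∈ S) (hc : T.card = S.card + 1)
    (h : sg a T = sg a S + a i) : False := by
  have h1 := uniq hV T (ind S + un i) (by
    simp only [Pi.add_apply]
    rw [Finset.sum_add_distrib, sum_ind, sum_un, hc]) (by rw [val_add, val_ind, val_un, h])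
  have h2 := congrFun h1 i
  rw [Pi.add_apply, ind_mem hi, un_self] at h2
  unfold ind at h2
  split_ifs at h2 <;> omega

/-- A level set element of the form `sum of S` cannot use an element outside of `S`. -/
theorem not_mem_sub {S : Finset ι} {b : ι} (hb : b ∉ S) {t : ℕ} (ht : t + 1 = S.card) :
    ¬ Mem a t (sg a S - a b) := by
  rintro ⟨m, hm, hv⟩
  have h1 := uniq hV S (m + un b) (by
    simp only [Pi.add_apply]
    rw [Finset.sum_add_distrib, hm, sum_un, ht]) (by
    rw [val_add, hv, val_un, sub_add_cancel])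
  have h2 := congrFun h1 b
  rw [Pi.add_apply, ind_notMem hb, un_self] at h2
  omega

end

/-! ### levels -/

/-- `g` is new at level `t` with respect to `b`. -/
def New (a : ι → G) (b : ι) (g : G) (t : ℕ) : Prop :=
  Mem a t g ∧ ∀ t', t' + 1 = t → ¬ Mem a t' (g - a b)

theorem mem_add (a : ι → G) (b : ι) {t : ℕ} {g : G} (h : Mem a t g) (k : ℕ) :
    Mem a (t + k) (g + k • a b) := by
  obtain ⟨m, hm, hv⟩ := h
  refine ⟨m + k • un b, ?_, ?_⟩
  · simp only [Pi.add_apply, Pi.smul_apply, smul_eq_mul]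
    rw [Finset.sum_add_distrib, hm, ← Finset.mul_sum, sum_un, mul_one]
  · rw [val_add, hv]
    congr 1
    unfold val
    simp only [Pi.smul_apply, smul_assoc]
    rw [← Finset.smul_sum]
    congr 1
    exact val_un a b

theorem new_inj (a : ι → G) (b : ι) {g g' : G} {t t' : ℕ} (h : New a b g t)
    (h' : New a b g' t') (e : g - t • a b = g' - t' • a b) : g = g' ∧ t = t' := by
  have key : ∀ {g g' : G} {t t' : ℕ}, New a b g t → New a b g' t' →
      g - t • a b = g' - t' • a b → ¬ t < t' := by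
    intro g g' t t' h h' e hlt
    obtain ⟨k, rfl⟩ := Nat.exists_eq_add_of_lt hlt
    refine h'.2 (t + k) (by omega) ?_
    have h1 := mem_add a b h.1 k
    convert h1 using 1
    have e2 : g' = g - t • a b + (t + k + 1) • a b := by rw [e]; abel
    rw [e2, add_smul, add_smul, one_smul]
    abel
  have h1 := key h h' e
  have h2 := key h' h e.symm
  have ht : t = t' := by omega
  subst ht
  refine ⟨?_, rfl⟩
  exact sub_left_injective e

theorem new_card [Fintype G] (a : ι → G) (b : ι) (W : Finset (G × ℕ))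
    (hW : ∀ w ∈ W, New a b w.1 w.2) : W.card ≤ Fintype.card G := by
  classical
  have hinj : Set.InjOn (fun w : G × ℕ => w.1 - w.2 • a b) (W : Set (G × ℕ)) := by
    intro w hw w' hw' e
    obtain ⟨h1, h2⟩ := new_inj a b (hW w (Finset.mem_coe.mp hw)) (hW w' (Finset.mem_coe.mp hw')) e
    exact Prod.ext h1 h2
  have := Finset.card_le_card_of_injOn (t := (Finset.univ : Finset G)) _
    (fun w _ => Finset.mem_univ _) hinj
  simpa using this

/-! ### the pairs `(S, i)` with `i ∈ S` -/

open Classical in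
/-- `b` such that `σ S + a i - a b` is not in the level set. -/
noncomputable def Ks (a : ι → G) (S : Finset ι) (i : ι) : Finset ι :=
  univ.filter fun b => ¬ Mem a S.card (sg a S + a i - a b)

open Classical in
/-- `b` outside of `S` such that `σ S + a i - a b` is a sum of distinct elements. -/
noncomputable def Hs (a : ι → G) (S : Finset ι) (i : ι) : Finset ι :=
  univ.filter fun b => b ∉ S ∧ ∃ S' : Finset ι, S'.card = S.card ∧ sg a S' = sg a S + a i - a b

theorem mem_Ks {a : ι → G} {S : Finset ι} {i b : ι} :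
    b ∈ Ks a S i ↔ ¬ Mem a S.card (sg a S + a i - a b) := by
  classical
  unfold Ks
  rw [Finset.mem_filter]
  simp

theorem mem_Hs {a : ι → G} {S : Finset ι} {i b : ι} :
    b ∈ Hs a S i ↔ b ∉ S ∧ ∃ S' : Finset ι, S'.card = S.card ∧ sg a S' = sg a S + a i - a b := by
  classical
  unfold Hs
  rw [Finset.mem_filter]
  simp

theorem Ks_not_mem {a : ι → G} {S : Finset ι} {i b : ι} (hi : i ∈ S) (hb : b ∈ Ks a S i) :
    b ∉ S := by
  intro hbS
  rw [mem_Ks] at hb
  apply hb
  refine ⟨ind (S.erase b) + un i, ?_, ?_⟩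
  · simp only [Pi.add_apply]
    rw [Finset.sum_add_distrib, sum_ind, sum_un, Finset.card_erase_of_mem hbS]
    have : 0 < S.card := Finset.card_pos.mpr ⟨b, hbS⟩
    omega
  · rw [val_add, val_ind, val_un, sg_erase a hbS]
    abel

theorem three_disjoint (a : ι → G) {S : Finset ι} {i : ι} (hi : i ∈ S) :
    (Ks a S i).card + (Hs a S i).card + S.card ≤ Fintype.card ι := by
  have h1 : Disjoint (Ks a S i) (Hs a S i) := by
    rw [Finset.disjoint_left]
    intro b hK hH
    rw [mem_Ks] at hK
    rw [mem_Hs] at hH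
    obtain ⟨_, S', hc, hs⟩ := hH
    apply hK
    exact ⟨ind S', by rw [sum_ind, hc], by rw [val_ind, hs]⟩
  have h2 : Disjoint (Ks a S i ∪ Hs a S i) S := by
    rw [Finset.disjoint_left]
    intro b hb hS
    rw [Finset.mem_union] at hb
    rcases hb with hb | hb
    · exact Ks_not_mem hi hb hS
    · rw [mem_Hs] at hb
      exact hb.1 hS
  rw [← Finset.card_union_of_disjoint h1, ← Finset.card_union_of_disjoint h2]
  exact Finset.card_le_univ _

/-- The pairs. -/
def Pr (ι : Type*) [Fintype ι] [DecidableEq ι] : Finset (Finset ι × ι) :=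
  univ.filter fun p => p.2 ∈ p.1

theorem mem_Pr {p : Finset ι × ι} : p ∈ Pr ι ↔ p.2 ∈ p.1 := by
  unfold Pr
  simp

/-- The doubled element of a pair, with its level. -/
def ph (a : ι → G) (p : Finset ι × ι) : G × ℕ := (sg a p.1 + a p.2, p.1.card + 1)

open Classical in
/-- The fibre of a pair. -/
noncomputable def Fb (a : ι → G) (p : Finset ι × ι) : Finset (Finset ι × ι) :=
  (Pr ι).filter fun q => ph a q = ph a p

theorem fibre_card {a : ι → G} (hV : Vd a) {p : Finset ι × ι} (hp : p ∈ Pr ι) :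
    (Fb a p).card ≤ 1 + (Hs a p.1 p.2).card := by
  classical
  rw [mem_Pr] at hp
  have hmaps : ∀ q ∈ Fb a p, q.2 ∈ insert p.2 (Hs a p.1 p.2) := by
    intro q hq
    unfold Fb at hq
    rw [Finset.mem_filter, mem_Pr] at hq
    obtain ⟨hq1, hq2⟩ := hq
    unfold ph at hq2
    obtain ⟨e1, e2⟩ := Prod.mk.inj hq2
    rw [Finset.mem_insert]
    by_cases h : q.2 = p.2
    · exact Or.inl h
    · right
      rw [mem_Hs]
      refine ⟨?_, q.1, by omega, ?_⟩
      · intro hqS
        -- `q.2 ∈ p.1`, `q.2 ≠ p.2`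
        refine not_sq hV (S := p.1.erase q.2) (T := q.1) (i := p.2) ?_ ?_ ?_
        · rw [Finset.mem_erase]
          exact ⟨Ne.symm h, hp⟩
        · rw [Finset.card_erase_of_mem hqS]
          have : 0 < p.1.card := Finset.card_pos.mpr ⟨_, hqS⟩
          omega
        · have h3 : sg a q.1 = sg a p.1 + a p.2 - a q.2 := by rw [← e1]; abel
          rw [h3, sg_erase a hqS]
          abel
      · rw [← e1]; abel
  have hinj : Set.InjOn (fun q : Finset ι × ι => q.2) (Fb a p : Set _) := by
    intro q hq q' hq' e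
    rw [Finset.mem_coe] at hq hq'
    unfold Fb at hq hq'
    rw [Finset.mem_filter, mem_Pr] at hq hq'
    obtain ⟨_, h2⟩ := hq
    obtain ⟨_, h2'⟩ := hq'
    rw [← h2'] at h2
    unfold ph at h2
    obtain ⟨e1, e2⟩ := Prod.mk.inj h2
    have e' : q.2 = q'.2 := e
    refine Prod.ext (sg_inj hV (by omega) ?_) e'
    rw [e'] at e1
    exact add_right_cancel e1
  have h1 := Finset.card_le_card_of_injOn _ hmaps hinj
  have h2 := Finset.card_insert_le p.2 (Hs a p.1 p.2)
  omega

/-- the number of sets not containing `b` -/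
theorem card_avoid (b : ι) :
    (univ.filter fun S : Finset ι => b ∉ S).card = 2 ^ (Fintype.card ι - 1) := by
  have : (univ.filter fun S : Finset ι => b ∉ S) = (univ.erase b).powerset := by
    ext S
    simp only [Finset.mem_filter, Finset.mem_univ, true_and, Finset.mem_powerset]
    constructor
    · intro h x hx
      rw [Finset.mem_erase]
      refine ⟨?_, Finset.mem_univ _⟩
      rintro rfl
      exact h hx
    · intro h hb
      have := h hb
      rw [Finset.mem_erase] at this
      exact this.1 rfl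
  rw [this, Finset.card_powerset, Finset.card_erase_of_mem (Finset.mem_univ b), Finset.card_univ]

/-- For every `b`: the elements which are new with respect to `b`. -/
theorem count_b [Fintype G] {a : ι → G} (hV : Vd a) (b : ι) [DecidableEq G] :
    2 ^ (Fintype.card ι - 1) + (((Pr ι).image (ph a)).filter
      fun z => ∀ p ∈ Pr ι, ph a p = z → b ∈ Ks a p.1 p.2).card ≤ Fintype.card G := by
  classical
  set W1 : Finset (G × ℕ) := (univ.filter fun S : Finset ι => b ∉ S).image
    (fun S => (sg a S, S.card)) with hW1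
  set W2 : Finset (G × ℕ) := ((Pr ι).image (ph a)).filter
      fun z => ∀ p ∈ Pr ι, ph a p = z → b ∈ Ks a p.1 p.2 with hW2
  have hc1 : W1.card = 2 ^ (Fintype.card ι - 1) := by
    rw [hW1, Finset.card_image_of_injOn, card_avoid]
    intro S _ T _ e
    obtain ⟨e1, e2⟩ := Prod.mk.inj e
    exact sg_inj hV e2 e1
  have hdisj : Disjoint W1 W2 := by
    rw [Finset.disjoint_left]
    intro w h1 h2
    rw [hW1, Finset.mem_image] at h1
    rw [hW2, Finset.mem_filter, Finset.mem_image] at h2
    obtain ⟨T, _, rfl⟩ := h1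
    obtain ⟨⟨p, hp, e⟩, _⟩ := h2
    unfold ph at e
    obtain ⟨e1, e2⟩ := Prod.mk.inj e
    exact not_sq hV (mem_Pr.mp hp) e2.symm e1.symm
  have hnew : ∀ w ∈ W1 ∪ W2, New a b w.1 w.2 := by
    intro w hw
    rw [Finset.mem_union] at hw
    rcases hw with hw | hw
    · rw [hW1, Finset.mem_image] at hw
      obtain ⟨S, hS, rfl⟩ := hw
      rw [Finset.mem_filter] at hS
      refine ⟨⟨ind S, sum_ind S, val_ind a S⟩, ?_⟩
      intro t' ht'
      exact not_mem_sub hV hS.2 ht'
    · rw [hW2, Finset.mem_filter, Finset.mem_image] at hw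
      obtain ⟨⟨p, hp, rfl⟩, h2⟩ := hw
      unfold ph
      refine ⟨⟨ind p.1 + un p.2, ?_, ?_⟩, ?_⟩
      · simp only [Pi.add_apply]
        rw [Finset.sum_add_distrib, sum_ind, sum_un]
      · rw [val_add, val_ind, val_un]
      · intro t' ht'
        have h3 := h2 p hp rfl
        rw [mem_Ks] at h3
        have : t' = p.1.card := by simpa using ht'
        rw [this]
        exact h3
  have h := new_card a b (W1 ∪ W2) hnew
  rw [Finset.card_union_of_disjoint hdisj, hc1] at h
  exact h

theorem Ks_congr {a : ι → G} {p q : Finset ι × ι} (h : ph a p = ph a q) :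
    Ks a p.1 p.2 = Ks a q.1 q.2 := by
  unfold ph at h
  obtain ⟨e1, e2⟩ := Prod.mk.inj h
  ext b
  rw [mem_Ks, mem_Ks, e1]
  have : p.1.card = q.1.card := by omega
  rw [this]

/-- **Basic counting inequality.** -/
theorem count_all [Fintype G] {a : ι → G} (hV : Vd a) :
    (Fintype.card ι : ℝ) * 2 ^ (Fintype.card ι - 1) +
      ∑ p ∈ Pr ι, ((Ks a p.1 p.2).card : ℝ) / (1 + (Hs a p.1 p.2).card) ≤
      (Fintype.card ι : ℝ) * Fintype.card G := by
  classical
  -- the sum over the image
  have h1 : ∑ b : ι, (2 ^ (Fintype.card ι - 1) + (((Pr ι).image (ph a)).filter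
      fun z => ∀ p ∈ Pr ι, ph a p = z → b ∈ Ks a p.1 p.2).card) ≤
      ∑ _b : ι, Fintype.card G := Finset.sum_le_sum fun b _ => count_b hV b
  rw [Finset.sum_add_distrib, Finset.sum_const, Finset.sum_const, Finset.card_univ,
    smul_eq_mul, smul_eq_mul] at h1
  have h2 : ∑ b : ι, (((Pr ι).image (ph a)).filter
      fun z => ∀ p ∈ Pr ι, ph a p = z → b ∈ Ks a p.1 p.2).card =
      ∑ z ∈ (Pr ι).image (ph a), (univ.filter
        fun b : ι => ∀ p ∈ Pr ι, ph a p = z → b ∈ Ks a p.1 p.2).card := by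
    simp only [Finset.card_filter]
    rw [Finset.sum_comm]
  have h3 : ∑ p ∈ Pr ι, ((Ks a p.1 p.2).card : ℝ) / (1 + (Hs a p.1 p.2).card) ≤
      ∑ z ∈ (Pr ι).image (ph a), ((univ.filter
        fun b : ι => ∀ p ∈ Pr ι, ph a p = z → b ∈ Ks a p.1 p.2).card : ℝ) := by
    rw [← Finset.sum_fiberwise_of_maps_to (t := (Pr ι).image (ph a)) (g := ph a)
      (fun p hp => Finset.mem_image_of_mem _ hp)]
    refine Finset.sum_le_sum fun z hz => ?_
    rw [Finset.mem_image] at hz
    obtain ⟨q, hq, rfl⟩ := hz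
    have hK : (univ.filter fun b : ι => ∀ p ∈ Pr ι, ph a p = ph a q → b ∈ Ks a p.1 p.2) =
        Ks a q.1 q.2 := by
      ext b
      rw [Finset.mem_filter]
      constructor
      · intro h
        exact h.2 q hq rfl
      · intro h
        refine ⟨Finset.mem_univ _, fun p _ hp => ?_⟩
        rw [Ks_congr hp]
        exact h
    rw [hK]
    have hterm : ∀ p ∈ (Pr ι).filter (fun p => ph a p = ph a q),
        ((Ks a p.1 p.2).card : ℝ) / (1 + (Hs a p.1 p.2).card) ≤
          ((Ks a q.1 q.2).card : ℝ) / ((Pr ι).filter (fun p => ph a p = ph a q)).card := by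
      intro p hp
      have hp' := Finset.mem_filter.mp hp
      rw [Ks_congr hp'.2]
      have hcard := fibre_card hV hp'.1
      have hfb : Fb a p = (Pr ι).filter (fun p => ph a p = ph a q) := by
        unfold Fb
        rw [hp'.2]
      rw [hfb] at hcard
      have hpos : 0 < ((Pr ι).filter (fun p => ph a p = ph a q)).card :=
        Finset.card_pos.mpr ⟨p, hp⟩
      apply div_le_div_of_nonneg_left (Nat.cast_nonneg _)
      · exact_mod_cast hpos
      · exact_mod_cast hcard
    have hpos : 0 < ((Pr ι).filter (fun p => ph a p = ph a q)).card :=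
      Finset.card_pos.mpr ⟨q, Finset.mem_filter.mpr ⟨hq, rfl⟩⟩
    have hpos' : (((Pr ι).filter (fun p => ph a p = ph a q)).card : ℝ) ≠ 0 := by
      exact_mod_cast hpos.ne'
    calc _ ≤ ∑ _p ∈ (Pr ι).filter (fun p => ph a p = ph a q),
          ((Ks a q.1 q.2).card : ℝ) / ((Pr ι).filter (fun p => ph a p = ph a q)).card :=
          Finset.sum_le_sum hterm
      _ = ((Ks a q.1 q.2).card : ℝ) := by
          rw [Finset.sum_const, nsmul_eq_mul]
          field_simp
  rw [h2] at h1
  have h1' : ((Fintype.card ι * 2 ^ (Fintype.card ι - 1) + ∑ z ∈ (Pr ι).image (ph a), (univ.filter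
        fun b : ι => ∀ p ∈ Pr ι, ph a p = z → b ∈ Ks a p.1 p.2).card : ℕ) : ℝ) ≤
      ((Fintype.card ι * Fintype.card G : ℕ) : ℝ) := by exact_mod_cast h1
  push_cast at h1'
  linarith

/-! ### duality -/

/-- **Duality.** -/
theorem duality {a : ι → G} (hV : Vd a) {S : Finset ι} {i b : ι} (hb : b ∉ S) :
    b ∈ Ks a S i ∨ b ∈ Hs a S i ∨ i ∈ Ks a Sᶜ b := by
  by_contra hcon
  push Not at hcon
  obtain ⟨h1, h2, h3⟩ := hcon
  rw [mem_Ks, not_not] at h1 h3
  obtain ⟨m, hm, hv⟩ := h1
  obtain ⟨m', hm', hv'⟩ := h3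
  have h4 := hV (m + m') (by
    simp only [Pi.add_apply]
    rw [Finset.sum_add_distrib, hm, hm', Finset.card_add_card_compl]) (by
    rw [val_add, hv, hv', ← sg_compl a S]
    abel)
  apply h2
  rw [mem_Hs]
  have hle : ∀ j, m j ≤ 1 := by
    intro j
    have := h4 j
    rw [Pi.add_apply] at this
    omega
  have hind : m = ind (univ.filter fun j => m j = 1) := by
    funext j
    have h5 := hle j
    unfold ind
    simp only [Finset.mem_filter, Finset.mem_univ, true_and]
    split_ifs with h6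
    · exact h6
    · omega
  refine ⟨hb, univ.filter fun j => m j = 1, ?_, ?_⟩
  · rw [← sum_ind, ← hind, hm]
  · rw [← val_ind, ← hind, hv]

/-- The triples `(S, i, b)` with `i ∈ S`, `b ∉ S`. -/
def Tr (ι : Type*) [Fintype ι] [DecidableEq ι] : Finset (Finset ι × ι × ι) :=
  univ.filter fun q => q.2.1 ∈ q.1 ∧ q.2.2 ∉ q.1

theorem mem_Tr {q : Finset ι × ι × ι} : q ∈ Tr ι ↔ q.2.1 ∈ q.1 ∧ q.2.2 ∉ q.1 := by
  unfold Tr
  simp

theorem card_Ks (a : ι → G) : ∑ p ∈ Pr ι, (Ks a p.1 p.2).card =
    ((Tr ι).filter fun q => q.2.2 ∈ Ks a q.1 q.2.1).card := by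
  rw [← Finset.card_sigma]
  refine Finset.card_bij (fun x _ => (x.1.1, x.1.2, x.2)) ?_ ?_ ?_
  · intro x hx
    rw [Finset.mem_sigma, mem_Pr] at hx
    rw [Finset.mem_filter, mem_Tr]
    exact ⟨⟨hx.1, Ks_not_mem hx.1 hx.2⟩, hx.2⟩
  · intro x _ y _ e
    simp only [Prod.mk.injEq] at e
    obtain ⟨e1, e2, e3⟩ := e
    exact Sigma.ext (Prod.ext e1 e2) (by simpa using e3)
  · intro q hq
    rw [Finset.mem_filter, mem_Tr] at hq
    exact ⟨⟨(q.1, q.2.1), q.2.2⟩, by rw [Finset.mem_sigma, mem_Pr]; exact ⟨hq.1.1, hq.2⟩, rfl⟩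

theorem card_Hs (a : ι → G) : ∑ p ∈ Pr ι, (Hs a p.1 p.2).card =
    ((Tr ι).filter fun q => q.2.2 ∈ Hs a q.1 q.2.1).card := by
  rw [← Finset.card_sigma]
  refine Finset.card_bij (fun x _ => (x.1.1, x.1.2, x.2)) ?_ ?_ ?_
  · intro x hx
    rw [Finset.mem_sigma, mem_Pr] at hx
    rw [Finset.mem_filter, mem_Tr]
    exact ⟨⟨hx.1, (mem_Hs.mp hx.2).1⟩, hx.2⟩
  · intro x _ y _ e
    simp only [Prod.mk.injEq] at e
    obtain ⟨e1, e2, e3⟩ := e
    exact Sigma.ext (Prod.ext e1 e2) (by simpa using e3)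
  · intro q hq
    rw [Finset.mem_filter, mem_Tr] at hq
    exact ⟨⟨(q.1, q.2.1), q.2.2⟩, by rw [Finset.mem_sigma, mem_Pr]; exact ⟨hq.1.1, hq.2⟩, rfl⟩

theorem card_dual {a : ι → G} (hV : Vd a) :
    (Tr ι).card ≤ 2 * ∑ p ∈ Pr ι, (Ks a p.1 p.2).card + ∑ p ∈ Pr ι, (Hs a p.1 p.2).card := by
  rw [card_Ks, card_Hs]
  set A1 := (Tr ι).filter fun q => q.2.2 ∈ Ks a q.1 q.2.1 with hA1
  set A2 := (Tr ι).filter fun q => q.2.2 ∈ Hs a q.1 q.2.1 with hA2
  have hsub : Tr ι ⊆ A1 ∪ A2 ∪ A1.image (fun q => (q.1ᶜ, q.2.2, q.2.1)) := by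
    intro q hq
    have hq' := mem_Tr.mp hq
    rw [Finset.mem_union, Finset.mem_union]
    rcases duality hV (i := q.2.1) hq'.2 with h | h | h
    · exact Or.inl (Or.inl (Finset.mem_filter.mpr ⟨hq, h⟩))
    · exact Or.inl (Or.inr (Finset.mem_filter.mpr ⟨hq, h⟩))
    · right
      rw [Finset.mem_image]
      refine ⟨(q.1ᶜ, q.2.2, q.2.1), ?_, ?_⟩
      · rw [hA1, Finset.mem_filter, mem_Tr]
        refine ⟨⟨?_, ?_⟩, h⟩
        · simpa using hq'.2
        · simpa using hq'.1
      · simp
  have h1 := Finset.card_le_card hsub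
  have h2 := Finset.card_union_le (A1 ∪ A2) (A1.image (fun q => (q.1ᶜ, q.2.2, q.2.1)))
  have h3 := Finset.card_union_le A1 A2
  have h4 := Finset.card_image_le (s := A1) (f := fun q => (q.1ᶜ, q.2.2, q.2.1))
  omega

end Pool.Agent.Work.MP_2a6590_nt.H97
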