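import Mathlib

/-!
# Bollobas' set pair inequality and a weighted corollary
-/

namespace Pool.Agent.Work.MP_2a6590_nt.H97

open Finset

variable {α : Type*} [DecidableEq α]

/-- A cross intersecting family of pairs of disjoint sets. -/
structure Cross (F : Finset (Finset α × Finset α)) : Prop where
  disj : ∀ p ∈ F, Disjoint p.1 p.2
  inter : ∀ p ∈ F, ∀ q ∈ F, p ≠ q → (p.1 ∩ q.2).Nonempty

theorem Cross.fst_inj {F : Finset (Finset α × Finset α)} (h : Cross F) {p q : Finset α × Finset α}
    (hp : p ∈ F) (hq : q ∈ F) (hpq : p.1 = q.1) : p = q := by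
  by_contra hne
  obtain ⟨x, hx⟩ := h.inter p hp q hq hne
  rw [Finset.mem_inter] at hx
  rw [hpq] at hx
  exact (Finset.disjoint_left.mp (h.disj q hq)) hx.1 hx.2

theorem Cross.mono {F F' : Finset (Finset α × Finset α)} (h : Cross F) (hF : F' ⊆ F) : Cross F' :=
  ⟨fun p hp => h.disj p (hF hp), fun p hp q hq => h.inter p (hF hp) q (hF hq)⟩

/-- The binomial weight of a pair. -/
def bw (p : Finset α × Finset α) : ℚ := ((p.1.card + p.2.card).choose p.1.card : ℚ)⁻¹

omit [DecidableEq α] in
theorem bw_le_one (p : Finset α × Finset α) : bw p ≤ 1 := by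
  unfold bw
  apply inv_le_one_of_one_le₀
  have : 0 < (p.1.card + p.2.card).choose p.1.card := Nat.choose_pos (by omega)
  exact_mod_cast this

theorem choose_id (u v : ℕ) (hv : 0 < v) :
    (v : ℚ) * (((u + (v - 1)).choose u : ℚ))⁻¹ = ((u : ℚ) + v) * (((u + v).choose u : ℚ))⁻¹ := by
  obtain ⟨w, rfl⟩ : ∃ w, v = w + 1 := ⟨v - 1, by omega⟩
  have h1 : 0 < (u + w).choose u := Nat.choose_pos (by omega)
  have h2 : 0 < (u + (w + 1)).choose u := Nat.choose_pos (by omega)
  have h1' : ((u + w).choose u : ℚ) ≠ 0 := by exact_mod_cast h1.ne'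
  have h2' : ((u + (w + 1)).choose u : ℚ) ≠ 0 := by exact_mod_cast h2.ne'
  have key : (u + w).choose u * (u + w + 1) = (u + (w + 1)).choose u * (w + 1) := by
    have h3 := Nat.choose_mul_succ_eq (u + w) u
    have h4 : u + w + 1 - u = w + 1 := by omega
    rw [h4] at h3
    rw [h3]
    rfl
  have key' : ((u + w).choose u : ℚ) * (u + w + 1) = ((u + (w + 1)).choose u : ℚ) * (w + 1) := by
    exact_mod_cast key
  rw [Nat.add_sub_cancel]
  push_cast
  field_simp
  linarith

theorem boll_aux : ∀ (n : ℕ) (X : Finset α) (F : Finset (Finset α × Finset α)), X.card = n →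
    Cross F → (∀ p ∈ F, p.1 ⊆ X ∧ p.2 ⊆ X) → ∑ p ∈ F, bw p ≤ 1 := by
  intro n
  induction n with
  | zero =>
    intro X F hX hF hsub
    have hF1 : F.card ≤ 1 := by
      rw [Finset.card_le_one]
      intro p hp q hq
      have hX0 : X = ∅ := Finset.card_eq_zero.mp hX
      apply hF.fst_inj hp hq
      have h1 := (hsub p hp).1
      have h2 := (hsub q hq).1
      rw [hX0, Finset.subset_empty] at h1 h2
      rw [h1, h2]
    calc ∑ p ∈ F, bw p ≤ ∑ _p ∈ F, (1 : ℚ) := Finset.sum_le_sum fun p _ => bw_le_one p
      _ = F.card := by simp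
      _ ≤ 1 := by exact_mod_cast hF1
  | succ n ih =>
    intro X F hX hF hsub
    by_cases hF1 : F.card ≤ 1
    · calc ∑ p ∈ F, bw p ≤ ∑ _p ∈ F, (1 : ℚ) := Finset.sum_le_sum fun p _ => bw_le_one p
        _ = F.card := by simp
        _ ≤ 1 := by exact_mod_cast hF1
    have hv : ∀ p ∈ F, 0 < p.2.card := by
      intro p hp
      by_contra hcon
      have h0 : p.2 = ∅ := Finset.card_eq_zero.mp (by omega)
      apply hF1
      rw [Finset.card_le_one]
      intro q hq q' hq'
      have key : ∀ q ∈ F, q = p := by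
        intro q hq
        by_contra hne
        obtain ⟨x, hx⟩ := hF.inter q hq p hp hne
        rw [h0, Finset.inter_empty] at hx
        exact absurd hx (Finset.notMem_empty x)
      rw [key q hq, key q' hq']
    -- the derived families
    have hx : ∀ x ∈ X, ∑ p ∈ F.filter (fun p => x ∉ p.1), bw (p.1, p.2.erase x) ≤ 1 := by
      intro x hxX
      set G := F.filter (fun p => x ∉ p.1) with hG
      have hinj : Set.InjOn (fun p : Finset α × Finset α => (p.1, p.2.erase x)) (G : Set _) := by
        intro p hp q hq hpq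
        have hp' := (Finset.mem_filter.mp (Finset.mem_coe.mp hp)).1
        have hq' := (Finset.mem_filter.mp (Finset.mem_coe.mp hq)).1
        exact hF.fst_inj hp' hq' (Prod.mk.inj hpq).1
      have h1 := ih (X.erase x) (G.image fun p => (p.1, p.2.erase x))
        (by rw [Finset.card_erase_of_mem hxX, hX]; rfl) ?_ ?_
      · rwa [Finset.sum_image hinj] at h1
      · refine ⟨?_, ?_⟩
        · intro p hp
          rw [Finset.mem_image] at hp
          obtain ⟨q, hq, rfl⟩ := hp
          have hq' := (Finset.mem_filter.mp hq).1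
          exact (hF.disj q hq').mono_right (Finset.erase_subset _ _)
        · intro p hp q hq hne
          rw [Finset.mem_image] at hp hq
          obtain ⟨p', hp', rfl⟩ := hp
          obtain ⟨q', hq', rfl⟩ := hq
          have hp1 := Finset.mem_filter.mp hp'
          have hq1 := Finset.mem_filter.mp hq'
          have hne' : p' ≠ q' := by
            rintro rfl
            exact hne rfl
          obtain ⟨y, hy⟩ := hF.inter p' hp1.1 q' hq1.1 hne'
          rw [Finset.mem_inter] at hy
          refine ⟨y, ?_⟩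
          rw [Finset.mem_inter, Finset.mem_erase]
          refine ⟨hy.1, ?_, hy.2⟩
          rintro rfl
          exact hp1.2 hy.1
      · intro p hp
        rw [Finset.mem_image] at hp
        obtain ⟨q, hq, rfl⟩ := hp
        have hq1 := Finset.mem_filter.mp hq
        constructor
        · intro y hy
          rw [Finset.mem_erase]
          refine ⟨?_, (hsub q hq1.1).1 hy⟩
          rintro rfl
          exact hq1.2 hy
        · exact Finset.erase_subset_erase x (hsub q hq1.1).2
    have hsum : ∑ x ∈ X, ∑ p ∈ F.filter (fun p => x ∉ p.1), bw (p.1, p.2.erase x) ≤ X.card := by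
      calc _ ≤ ∑ _x ∈ X, (1 : ℚ) := Finset.sum_le_sum hx
        _ = X.card := by simp
    -- exchange of the sums
    have hswap : ∑ x ∈ X, ∑ p ∈ F.filter (fun p => x ∉ p.1), bw (p.1, p.2.erase x) =
        ∑ p ∈ F, ∑ x ∈ X.filter (fun x => x ∉ p.1), bw (p.1, p.2.erase x) := by
      simp only [Finset.sum_filter]
      rw [Finset.sum_comm]
    have hterm : ∀ p ∈ F, ∑ x ∈ X.filter (fun x => x ∉ p.1), bw (p.1, p.2.erase x) =
        X.card * bw p := by
      intro p hp
      have hd := hF.disj p hp
      obtain ⟨s1, s2⟩ := hsub p hp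
      have hsplit : X.filter (fun x => x ∉ p.1) = p.2 ∪ (X \ (p.1 ∪ p.2)) := by
        ext y
        simp only [Finset.mem_filter, Finset.mem_union, Finset.mem_sdiff]
        constructor
        · rintro ⟨h1, h2⟩
          by_cases h3 : y ∈ p.2
          · exact Or.inl h3
          · exact Or.inr ⟨h1, by rintro (h4 | h4) <;> contradiction⟩
        · rintro (h1 | ⟨h1, h2⟩)
          · exact ⟨s2 h1, fun h3 => (Finset.disjoint_left.mp hd) h3 h1⟩
          · exact ⟨h1, fun h3 => h2 (Or.inl h3)⟩
      have hdis : Disjoint p.2 (X \ (p.1 ∪ p.2)) := by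
        rw [Finset.disjoint_left]
        intro y h1 h2
        rw [Finset.mem_sdiff] at h2
        exact h2.2 (Finset.mem_union_right _ h1)
      rw [hsplit, Finset.sum_union hdis]
      have e1 : ∑ x ∈ p.2, bw (p.1, p.2.erase x) =
          (p.2.card : ℚ) * (((p.1.card + (p.2.card - 1)).choose p.1.card : ℚ))⁻¹ := by
        rw [Finset.sum_congr rfl (g := fun _ =>
          (((p.1.card + (p.2.card - 1)).choose p.1.card : ℚ))⁻¹)]
        · rw [Finset.sum_const, nsmul_eq_mul]
        · intro x hx'
          unfold bw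
          simp only
          rw [Finset.card_erase_of_mem hx']
      have e2 : ∑ x ∈ X \ (p.1 ∪ p.2), bw (p.1, p.2.erase x) =
          ((X.card : ℚ) - (p.1.card + p.2.card)) * bw p := by
        rw [Finset.sum_congr rfl (g := fun _ => bw p)]
        · rw [Finset.sum_const, nsmul_eq_mul,
            Finset.card_sdiff_of_subset (Finset.union_subset s1 s2),
            Finset.card_union_of_disjoint hd, Nat.cast_sub, Nat.cast_add]
          rw [← Finset.card_union_of_disjoint hd]
          exact Finset.card_le_card (Finset.union_subset s1 s2)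
        · intro x hx'
          rw [Finset.mem_sdiff] at hx'
          have : x ∉ p.2 := fun h => hx'.2 (Finset.mem_union_right _ h)
          rw [Finset.erase_eq_of_notMem this]
      rw [e1, e2, choose_id _ _ (hv p hp)]
      unfold bw
      ring
    rw [hswap, Finset.sum_congr rfl hterm, ← Finset.mul_sum] at hsum
    have hXpos : (0 : ℚ) < X.card := by
      rw [hX]
      positivity
    have h2 : (X.card : ℚ) * ∑ p ∈ F, bw p ≤ X.card * 1 := by rw [mul_one]; exact hsum
    exact le_of_mul_le_mul_left h2 hXpos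

/-- **Bollobas' inequality.** -/
theorem boll (F : Finset (Finset α × Finset α)) (hF : Cross F) : ∑ p ∈ F, bw p ≤ 1 := by
  refine boll_aux _ (F.biUnion fun p => p.1 ∪ p.2) F rfl hF ?_
  intro p hp
  constructor
  · intro x hx
    exact Finset.mem_biUnion.mpr ⟨p, hp, Finset.mem_union_left _ hx⟩
  · intro x hx
    exact Finset.mem_biUnion.mpr ⟨p, hp, Finset.mem_union_right _ hx⟩

/-- The dyadic weight. -/
def dw (p : Finset α × Finset α) : ℚ := (1 / 4 : ℚ) ^ p.1.card

theorem central_half (u : ℕ) (hu : 1 ≤ u) : ((2 * u).choose u : ℚ) ≤ 4 ^ u / 2 := by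
  induction u, hu using Nat.le_induction with
  | base => norm_num
  | succ u hu ih =>
    have h := Nat.succ_mul_centralBinom_succ u
    simp only [Nat.centralBinom] at h
    have h' : ((u : ℚ) + 1) * ((2 * (u + 1)).choose (u + 1) : ℚ) =
        2 * (2 * u + 1) * ((2 * u).choose u : ℚ) := by exact_mod_cast h
    have hpos : (0 : ℚ) < (u : ℚ) + 1 := by positivity
    rw [← mul_le_mul_iff_right₀ hpos, h', pow_succ]
    nlinarith [show (0 : ℚ) ≤ ((2 * u).choose u : ℚ) from Nat.cast_nonneg _,
      show (0 : ℚ) ≤ (u : ℚ) from Nat.cast_nonneg _]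

theorem central_three (u : ℕ) (hu : 2 ≤ u) : ((2 * u).choose u : ℚ) ≤ 4 ^ u * (3 / 8) := by
  induction u, hu using Nat.le_induction with
  | base => norm_num [Nat.choose]
  | succ u hu ih =>
    have h := Nat.succ_mul_centralBinom_succ u
    simp only [Nat.centralBinom] at h
    have h' : ((u : ℚ) + 1) * ((2 * (u + 1)).choose (u + 1) : ℚ) =
        2 * (2 * u + 1) * ((2 * u).choose u : ℚ) := by exact_mod_cast h
    have hpos : (0 : ℚ) < (u : ℚ) + 1 := by positivity
    rw [← mul_le_mul_iff_right₀ hpos, h', pow_succ]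
    nlinarith [show (0 : ℚ) ≤ ((2 * u).choose u : ℚ) from Nat.cast_nonneg _,
      show (0 : ℚ) ≤ (u : ℚ) from Nat.cast_nonneg _]

omit [DecidableEq α] in
theorem dw_le_of {p : Finset α × Finset α} {c : ℚ} (hp : p.1.card = p.2.card)
    (h : ((2 * p.1.card).choose p.1.card : ℚ) ≤ 4 ^ p.1.card * c) : dw p ≤ c * bw p := by
  unfold dw bw
  rw [← hp, ← two_mul]
  have h1 : 0 < (2 * p.1.card).choose p.1.card := Nat.choose_pos (by omega)
  have h1' : (0 : ℚ) < ((2 * p.1.card).choose p.1.card : ℚ) := by exact_mod_cast h1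
  rw [one_div, inv_pow, ← div_eq_mul_inv, le_div_iff₀ h1', inv_mul_le_iff₀ (by positivity)]
  exact h

/-- families with nonempty members of equal size -/
theorem dyadic_half (F : Finset (Finset α × Finset α)) (hF : Cross F)
    (hs : ∀ p ∈ F, p.1.card = p.2.card) (h1 : ∀ p ∈ F, 1 ≤ p.1.card) :
    ∑ p ∈ F, dw p ≤ 1 / 2 := by
  calc ∑ p ∈ F, dw p ≤ ∑ p ∈ F, (1 / 2) * bw p := by
        refine Finset.sum_le_sum fun p hp => dw_le_of (hs p hp) ?_
        have := central_half p.1.card (h1 p hp)
        linarith
    _ = (1 / 2) * ∑ p ∈ F, bw p := by rw [Finset.mul_sum]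
    _ ≤ 1 / 2 := by linarith [boll F hF]

/-- **Weighted set pair inequality**: if the family contains no pair together with the reversed
pair then the sum of the dyadic weights is at most `3/8`. -/
theorem dyadic_three (F : Finset (Finset α × Finset α)) (hF : Cross F)
    (hs : ∀ p ∈ F, p.1.card = p.2.card) (h1 : ∀ p ∈ F, 1 ≤ p.1.card)
    (hrev : ∀ p ∈ F, (p.2, p.1) ∉ F) :
    ∑ p ∈ F, dw p ≤ 3 / 8 := by
  by_cases hex : ∃ p ∈ F, p.1.card = 1
  · obtain ⟨p₀, hp₀, hc⟩ := hex
    obtain ⟨x, hx⟩ := Finset.card_eq_one.mp hc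
    obtain ⟨y, hy⟩ := Finset.card_eq_one.mp ((hs p₀ hp₀).symm.trans hc)
    set G := F.erase p₀ with hG
    have hGF : G ⊆ F := Finset.erase_subset _ _
    have hxy : ∀ p ∈ G, y ∈ p.1 ∧ x ∈ p.2 := by
      intro p hp
      rw [hG, Finset.mem_erase] at hp
      constructor
      · obtain ⟨z, hz⟩ := hF.inter p hp.2 p₀ hp₀ hp.1
        rw [Finset.mem_inter, hy, Finset.mem_singleton] at hz
        rw [← hz.2]
        exact hz.1
      · obtain ⟨z, hz⟩ := hF.inter p₀ hp₀ p hp.2 (Ne.symm hp.1)
        rw [Finset.mem_inter, hx, Finset.mem_singleton] at hz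
        rw [← hz.1]
        exact hz.2
    have h2 : ∀ p ∈ G, 2 ≤ p.1.card := by
      intro p hp
      have hpF := hGF hp
      by_contra hcon
      have hc1 : p.1.card = 1 := by have := h1 p hpF; omega
      obtain ⟨hy1, hx1⟩ := hxy p hp
      have e1 : p.1 = {y} := by
        obtain ⟨z, hz⟩ := Finset.card_eq_one.mp hc1
        rw [hz, Finset.mem_singleton] at hy1
        rw [hz, hy1]
      have e2 : p.2 = {x} := by
        obtain ⟨z, hz⟩ := Finset.card_eq_one.mp ((hs p hpF).symm.trans hc1)
        rw [hz, Finset.mem_singleton] at hx1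
        rw [hz, hx1]
      apply hrev p hpF
      have : (p.2, p.1) = p₀ := by
        rw [e1, e2, ← hx, ← hy]
      rw [this]
      exact hp₀
    -- the reduced family
    have hinj : Set.InjOn (fun p : Finset α × Finset α => (p.1.erase y, p.2.erase x))
        (G : Set _) := by
      intro p hp q hq hpq
      have hp' := hxy p (Finset.mem_coe.mp hp)
      have hq' := hxy q (Finset.mem_coe.mp hq)
      obtain ⟨e1, e2⟩ := Prod.mk.inj hpq
      refine Prod.ext ?_ ?_
      · rw [← Finset.insert_erase hp'.1, e1, Finset.insert_erase hq'.1]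
      · rw [← Finset.insert_erase hp'.2, e2, Finset.insert_erase hq'.2]
    have hcross : Cross (G.image fun p => (p.1.erase y, p.2.erase x)) := by
      refine ⟨?_, ?_⟩
      · intro p hp
        rw [Finset.mem_image] at hp
        obtain ⟨q, hq, rfl⟩ := hp
        exact ((hF.disj q (hGF hq)).mono_right (Finset.erase_subset _ _)).mono_left
          (Finset.erase_subset _ _)
      · intro p hp q hq hne
        rw [Finset.mem_image] at hp hq
        obtain ⟨p', hp', rfl⟩ := hp
        obtain ⟨q', hq', rfl⟩ := hq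
        have hne' : p' ≠ q' := by
          rintro rfl
          exact hne rfl
        obtain ⟨z, hz⟩ := hF.inter p' (hGF hp') q' (hGF hq') hne'
        rw [Finset.mem_inter] at hz
        refine ⟨z, ?_⟩
        rw [Finset.mem_inter, Finset.mem_erase, Finset.mem_erase]
        refine ⟨⟨?_, hz.1⟩, ⟨?_, hz.2⟩⟩
        · rintro rfl
          exact (Finset.disjoint_left.mp (hF.disj q' (hGF hq'))) (hxy q' hq').1 hz.2
        · rintro rfl
          exact (Finset.disjoint_left.mp (hF.disj p' (hGF hp'))) hz.1 (hxy p' hp').2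
    have hhalf := dyadic_half (G.image fun p => (p.1.erase y, p.2.erase x)) hcross ?_ ?_
    · rw [Finset.sum_image hinj] at hhalf
      have h3 : ∑ p ∈ G, dw p = (1 / 4) * ∑ p ∈ G, dw (p.1.erase y, p.2.erase x) := by
        rw [Finset.mul_sum]
        refine Finset.sum_congr rfl fun p hp => ?_
        unfold dw
        simp only
        rw [Finset.card_erase_of_mem (hxy p hp).1, ← pow_succ']
        congr 1
        have := h2 p hp
        omega
      have h4 : ∑ p ∈ F, dw p = dw p₀ + ∑ p ∈ G, dw p := by
        rw [hG, Finset.add_sum_erase F dw hp₀]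
      have h5 : dw p₀ = 1 / 4 := by
        unfold dw
        rw [hc, pow_one]
      rw [h4, h5, h3]
      linarith
    · intro p hp
      rw [Finset.mem_image] at hp
      obtain ⟨q, hq, rfl⟩ := hp
      simp only
      rw [Finset.card_erase_of_mem (hxy q hq).1, Finset.card_erase_of_mem (hxy q hq).2,
        hs q (hGF hq)]
    · intro p hp
      rw [Finset.mem_image] at hp
      obtain ⟨q, hq, rfl⟩ := hp
      simp only
      rw [Finset.card_erase_of_mem (hxy q hq).1]
      have := h2 q hq
      omega
  · push Not at hex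
    calc ∑ p ∈ F, dw p ≤ ∑ p ∈ F, (3 / 8) * bw p := by
          refine Finset.sum_le_sum fun p hp => dw_le_of (hs p hp) ?_
          refine central_three p.1.card ?_
          have h3 := h1 p hp
          have h4 := hex p hp
          omega
      _ = (3 / 8) * ∑ p ∈ F, bw p := by rw [Finset.mul_sum]
      _ ≤ 3 / 8 := by linarith [boll F hF]

end Pool.Agent.Work.MP_2a6590_nt.H97
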