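import Pool.Agent.Work.MP_2a6590_nt.H97.Basic

/-!
# The number of coincidences: at most `3/8` of all triples
-/

namespace Pool.Agent.Work.MP_2a6590_nt.H97

open Finset

variable {ι G : Type*} [Fintype ι] [DecidableEq ι] [AddCommGroup G]

open Classical in
/-- The family of exchanges of `2 a i` against `2 a b`. -/
noncomputable def Fam (a : ι → G) (i b : ι) : Finset (Finset ι × Finset ι) :=
  univ.filter fun p => Disjoint p.1 p.2 ∧ (i ∉ p.1 ∧ b ∉ p.1 ∧ i ∉ p.2 ∧ b ∉ p.2) ∧
    p.1.card = p.2.card ∧ 2 • a i + sg a p.2 = 2 • a b + sg a p.1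

theorem mem_Fam {a : ι → G} {i b : ι} {p : Finset ι × Finset ι} :
    p ∈ Fam a i b ↔ Disjoint p.1 p.2 ∧ (i ∉ p.1 ∧ b ∉ p.1 ∧ i ∉ p.2 ∧ b ∉ p.2) ∧
    p.1.card = p.2.card ∧ 2 • a i + sg a p.2 = 2 • a b + sg a p.1 := by
  classical
  unfold Fam
  rw [Finset.mem_filter]
  simp

theorem Fam_cross {a : ι → G} (hV : Vd a) (i b : ι) : Cross (Fam a i b) := by
  classical
  refine ⟨fun p hp => (mem_Fam.mp hp).1, ?_⟩
  intro p hp q hq hne
  by_contra hcon
  rw [Finset.not_nonempty_iff_eq_empty] at hcon
  obtain ⟨dp, -, cp, ep⟩ := mem_Fam.mp hp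
  obtain ⟨dq, -, cq, eq⟩ := mem_Fam.mp hq
  -- `σ p.2 + σ q.1 = σ p.1 + σ q.2`
  have hd : Disjoint p.1 q.2 := by
    rw [Finset.disjoint_iff_inter_eq_empty]
    exact hcon
  have hs : sg a p.2 + sg a q.1 = sg a p.1 + sg a q.2 := by
    have h1 : (2 • a i + sg a p.2) + (2 • a b + sg a q.1) =
        (2 • a b + sg a p.1) + (2 • a i + sg a q.2) := by rw [ep, eq]
    have h2 : (2 • a i + 2 • a b) + (sg a p.2 + sg a q.1) =
        (2 • a i + 2 • a b) + (sg a p.1 + sg a q.2) := by
      calc _ = (2 • a i + sg a p.2) + (2 • a b + sg a q.1) := by abel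
        _ = (2 • a b + sg a p.1) + (2 • a i + sg a q.2) := h1
        _ = _ := by abel
    exact add_left_cancel h2
  have h := uniq hV (p.1 ∪ q.2) (ind p.2 + ind q.1) (by
    simp only [Pi.add_apply]
    rw [Finset.sum_add_distrib, sum_ind, sum_ind, Finset.card_union_of_disjoint hd]
    omega) (by
    rw [val_add, val_ind, val_ind, sg_union a hd, hs])
  have key : ∀ x, ind p.2 x + ind q.1 x = ind (p.1 ∪ q.2) x := fun x => by
    have := congrFun h x
    rwa [Pi.add_apply] at this
  have s1 : p.1 ⊆ q.1 := by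
    intro x hx
    have h1 := key x
    rw [ind_mem (Finset.mem_union_left _ hx),
      ind_notMem ((Finset.disjoint_left.mp dp) hx)] at h1
    by_contra hq1
    rw [ind_notMem hq1] at h1
    omega
  have s2 : q.2 ⊆ p.2 := by
    intro x hx
    have h1 := key x
    rw [ind_mem (Finset.mem_union_right _ hx),
      ind_notMem (fun h2 => (Finset.disjoint_left.mp dq) h2 hx)] at h1
    by_contra hp2
    rw [ind_notMem hp2] at h1
    omega
  have s3 : q.1 ⊆ p.1 := by
    intro x hx
    have h1 := key x
    have hx2 : x ∉ q.2 := (Finset.disjoint_left.mp dq) hx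
    by_contra hp1
    have hx3 : x ∉ p.1 ∪ q.2 := by
      rw [Finset.mem_union]
      rintro (h4 | h4) <;> contradiction
    rw [ind_mem hx, ind_notMem hx3] at h1
    omega
  have s4 : p.2 ⊆ q.2 := by
    intro x hx
    have h1 := key x
    have hx1 : x ∉ p.1 := fun h2 => (Finset.disjoint_left.mp dp) h2 hx
    by_contra hq2
    have hx3 : x ∉ p.1 ∪ q.2 := by
      rw [Finset.mem_union]
      rintro (h4 | h4) <;> contradiction
    rw [ind_mem hx, ind_notMem hx3] at h1
    omega
  exact hne (Prod.ext (Finset.Subset.antisymm s1 s3) (Finset.Subset.antisymm s4 s2))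

open Classical in
/-- The sets `S` such that `(S, i, b)` is a coincidence. -/
noncomputable def HS (a : ι → G) (i b : ι) : Finset (Finset ι) :=
  univ.filter fun S => i ∈ S ∧ b ∈ Hs a S i

theorem mem_HS {a : ι → G} {i b : ι} {S : Finset ι} : S ∈ HS a i b ↔ i ∈ S ∧ b ∈ Hs a S i := by
  classical
  unfold HS
  rw [Finset.mem_filter]
  simp

/-- The sets with `i` and without `b`. -/
theorem card_ib {i b : ι} (hib : i ≠ b) :
    (univ.filter fun S : Finset ι => i ∈ S ∧ b ∉ S).card = 2 ^ (Fintype.card ι - 2) := by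
  have h1 : (univ.filter fun S : Finset ι => i ∈ S ∧ b ∉ S) = Finset.Icc {i} ({b} : Finset ι)ᶜ := by
    ext S
    rw [Finset.mem_filter, Finset.mem_Icc]
    simp only [Finset.mem_univ, true_and, Finset.singleton_subset_iff]
    rw [Finset.subset_compl_comm, Finset.singleton_subset_iff, Finset.mem_compl]
  rw [h1, Finset.card_Icc_finset, Finset.card_compl, Finset.card_singleton, Finset.card_singleton]
  · congr 1
  · rw [Finset.singleton_subset_iff, Finset.mem_compl, Finset.mem_singleton]
    exact hib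

theorem HS_card_le {a : ι → G} {i b : ι} (hib : i ≠ b) :
    (HS a i b).card ≤ 2 ^ (Fintype.card ι - 2) := by
  classical
  rw [← card_ib hib]
  refine Finset.card_le_card fun S hS => ?_
  rw [mem_HS, mem_Hs] at hS
  rw [Finset.mem_filter]
  exact ⟨Finset.mem_univ _, hS.1, hS.2.1⟩

/-- The sets `S` compatible with an exchange. -/
def Cmp (i b : ι) (p : Finset ι × Finset ι) : Finset (Finset ι) :=
  Finset.Icc (insert i p.2) (insert b p.1)ᶜ

theorem Cmp_card {a : ι → G} {i b : ι} (hib : i ≠ b) {p : Finset ι × Finset ι}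
    (hp : p ∈ Fam a i b) :
    ((Cmp i b p).card : ℚ) = 2 ^ (Fintype.card ι - 2) * dw p := by
  obtain ⟨dp, ⟨h1, h2, h3, h4⟩, cp, -⟩ := mem_Fam.mp hp
  have hdis : Disjoint (insert i p.2) (insert b p.1) := by
    rw [Finset.disjoint_insert_left, Finset.disjoint_insert_right]
    refine ⟨?_, h4, dp.symm⟩
    rw [Finset.mem_insert]
    rintro (h | h)
    · exact hib h
    · exact h1 h
  have hsub : insert i p.2 ⊆ (insert b p.1)ᶜ := by
    rw [Finset.subset_compl_iff_disjoint_right]
    exact hdis
  unfold Cmp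
  rw [Finset.card_Icc_finset hsub, Finset.card_compl, Finset.card_insert_of_notMem h2,
    Finset.card_insert_of_notMem h3]
  have hle : (insert i p.2).card + (insert b p.1).card ≤ Fintype.card ι := by
    rw [← Finset.card_union_of_disjoint hdis]
    exact Finset.card_le_univ _
  rw [Finset.card_insert_of_notMem h2, Finset.card_insert_of_notMem h3] at hle
  unfold dw
  push_cast
  obtain ⟨k, hk⟩ : ∃ k, Fintype.card ι = 2 + 2 * p.1.card + k := ⟨Fintype.card ι - (2 + 2 * p.1.card),
    by omega⟩
  rw [show Fintype.card ι - (p.1.card + 1) - (p.2.card + 1) = k by omega,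
    show Fintype.card ι - 2 = 2 * p.1.card + k by omega, pow_add, pow_mul]
  rw [one_div, inv_pow]
  norm_num
  field_simp

theorem HS_sub {a : ι → G} (hV : Vd a) {i b : ι} (hib : i ≠ b) :
    HS a i b ⊆ (Fam a i b).biUnion (Cmp i b) := by
  classical
  intro S hS
  rw [mem_HS, mem_Hs] at hS
  obtain ⟨hiS, hbS, S', hc, hs⟩ := hS
  have hbS' : b ∈ S' := by
    by_contra hcon
    refine not_sq hV (S := S) (T := insert b S') hiS ?_ ?_
    · rw [Finset.card_insert_of_notMem hcon, hc]
    · rw [sg_insert a hcon, hs]; abel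
  have hiS' : i ∉ S' := by
    intro hcon
    refine not_sq hV (S := S'.erase i) (T := S) (i := b) ?_ ?_ ?_
    · rw [Finset.mem_erase]
      exact ⟨Ne.symm hib, hbS'⟩
    · rw [Finset.card_erase_of_mem hcon]
      have : 0 < S'.card := Finset.card_pos.mpr ⟨_, hcon⟩
      omega
    · have h1 := sg_erase a hcon
      rw [hs] at h1
      have h2 : sg a (S'.erase i) = sg a S - a b := by
        have : sg a S + a i - a b - a i = a i + sg a (S'.erase i) - a i := by rw [h1]
        rw [add_sub_cancel_left] at this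
        rw [← this]; abel
      rw [h2, sub_add_cancel]
  rw [Finset.mem_biUnion]
  set U := S' \ insert b S with hU
  set V := S \ insert i S' with hV'
  have hUV : Disjoint U V := by
    rw [Finset.disjoint_left]
    intro x hx hx'
    rw [hU, Finset.mem_sdiff, Finset.mem_insert] at hx
    rw [hV', Finset.mem_sdiff] at hx'
    exact hx.2 (Or.inr hx'.1)
  have dS' : S' = insert b (U ∪ (S ∩ S')) := by
    ext x
    rw [Finset.mem_insert, Finset.mem_union, Finset.mem_inter, hU, Finset.mem_sdiff,
      Finset.mem_insert]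
    constructor
    · intro hx
      by_cases hxb : x = b
      · exact Or.inl hxb
      · right
        by_cases hxS : x ∈ S
        · exact Or.inr ⟨hxS, hx⟩
        · exact Or.inl ⟨hx, by rintro (h | h) <;> contradiction⟩
    · rintro (rfl | h | h)
      · exact hbS'
      · exact h.1
      · exact h.2
  have dS : S = insert i (V ∪ (S ∩ S')) := by
    ext x
    rw [Finset.mem_insert, Finset.mem_union, Finset.mem_inter, hV', Finset.mem_sdiff,
      Finset.mem_insert]
    constructor
    · intro hx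
      by_cases hxb : x = i
      · exact Or.inl hxb
      · right
        by_cases hxS : x ∈ S'
        · exact Or.inr ⟨hx, hxS⟩
        · exact Or.inl ⟨hx, by rintro (h | h) <;> contradiction⟩
    · rintro (rfl | h | h)
      · exact hiS
      · exact h.1
      · exact h.1
  have dU : Disjoint U (S ∩ S') := by
    rw [Finset.disjoint_left]
    intro x hx hx'
    rw [hU, Finset.mem_sdiff, Finset.mem_insert] at hx
    rw [Finset.mem_inter] at hx'
    exact hx.2 (Or.inr hx'.1)
  have dV : Disjoint V (S ∩ S') := by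
    rw [Finset.disjoint_left]
    intro x hx hx'
    rw [hV', Finset.mem_sdiff, Finset.mem_insert] at hx
    rw [Finset.mem_inter] at hx'
    exact hx.2 (Or.inr hx'.2)
  have nb : b ∉ U ∪ (S ∩ S') := by
    rw [Finset.mem_union, Finset.mem_inter, hU, Finset.mem_sdiff, Finset.mem_insert]
    rintro (h | h)
    · exact h.2 (Or.inl rfl)
    · exact hbS h.1
  have ni : i ∉ V ∪ (S ∩ S') := by
    rw [Finset.mem_union, Finset.mem_inter, hV', Finset.mem_sdiff, Finset.mem_insert]
    rintro (h | h)
    · exact h.2 (Or.inl rfl)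
    · exact hiS' h.2
  have cS' : S'.card = U.card + (S ∩ S').card + 1 := by
    conv_lhs => rw [dS']
    rw [Finset.card_insert_of_notMem nb, Finset.card_union_of_disjoint dU]
  have cS : S.card = V.card + (S ∩ S').card + 1 := by
    conv_lhs => rw [dS]
    rw [Finset.card_insert_of_notMem ni, Finset.card_union_of_disjoint dV]
  have sS' : sg a S' = a b + (sg a U + sg a (S ∩ S')) := by
    conv_lhs => rw [dS']
    rw [sg_insert a nb, sg_union a dU]
  have sS : sg a S = a i + (sg a V + sg a (S ∩ S')) := by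
    conv_lhs => rw [dS]
    rw [sg_insert a ni, sg_union a dV]
  refine ⟨(U, V), ?_, ?_⟩
  · rw [mem_Fam]
    refine ⟨hUV, ⟨?_, ?_, ?_, ?_⟩, ?_, ?_⟩
    · intro h
      rw [hU, Finset.mem_sdiff] at h
      exact hiS' h.1
    · intro h
      rw [hU, Finset.mem_sdiff, Finset.mem_insert] at h
      exact h.2 (Or.inl rfl)
    · intro h
      rw [hV', Finset.mem_sdiff, Finset.mem_insert] at h
      exact h.2 (Or.inl rfl)
    · intro h
      rw [hV', Finset.mem_sdiff] at h
      exact hbS h.1
    · change U.card = V.card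
      omega
    · change 2 • a i + sg a V = 2 • a b + sg a U
      have h1 : (2 • a b + sg a U) + sg a (S ∩ S') = (2 • a i + sg a V) + sg a (S ∩ S') := by
        calc (2 • a b + sg a U) + sg a (S ∩ S') = a b + (a b + (sg a U + sg a (S ∩ S'))) := by
              rw [two_smul]; abel
          _ = a b + sg a S' := by rw [← sS']
          _ = a b + (sg a S + a i - a b) := by rw [hs]
          _ = sg a S + a i := by abel
          _ = (a i + (sg a V + sg a (S ∩ S'))) + a i := by rw [← sS]
          _ = _ := by rw [two_smul]; abel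
      exact (add_right_cancel h1).symm
  · unfold Cmp
    rw [Finset.mem_Icc]
    constructor
    · change insert i V ⊆ S
      intro x hx
      rw [Finset.mem_insert] at hx
      rcases hx with rfl | hx
      · exact hiS
      · rw [hV', Finset.mem_sdiff] at hx
        exact hx.1
    · change S ⊆ (insert b U)ᶜ
      intro x hx
      rw [Finset.mem_compl, Finset.mem_insert]
      rintro (rfl | h)
      · exact hbS hx
      · rw [hU, Finset.mem_sdiff, Finset.mem_insert] at h
        exact h.2 (Or.inr hx)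

/-- **At most `3/8` of the sets.** -/
theorem HS_card_three {a : ι → G} (hV : Vd a) {i b : ι} (h4 : 4 • a i ≠ 4 • a b) :
    ((HS a i b).card : ℚ) ≤ 3 / 8 * 2 ^ (Fintype.card ι - 2) := by
  classical
  have hib : i ≠ b := by
    rintro rfl
    exact h4 rfl
  have h1 := Finset.card_le_card (HS_sub hV hib)
  have h2 : ((Fam a i b).biUnion (Cmp i b)).card ≤ ∑ p ∈ Fam a i b, (Cmp i b p).card :=
    Finset.card_biUnion_le
  have h3 : ((HS a i b).card : ℚ) ≤ ∑ p ∈ Fam a i b, ((Cmp i b p).card : ℚ) := by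
    exact_mod_cast h1.trans h2
  rw [Finset.sum_congr rfl fun p hp => Cmp_card hib hp, ← Finset.mul_sum] at h3
  have h5 : ∑ p ∈ Fam a i b, dw p ≤ 3 / 8 := by
    refine dyadic_three _ (Fam_cross hV i b) (fun p hp => (mem_Fam.mp hp).2.2.1) ?_ ?_
    · intro p hp
      obtain ⟨-, -, cp, ep⟩ := mem_Fam.mp hp
      by_contra hcon
      have c1 : p.1 = ∅ := Finset.card_eq_zero.mp (by omega)
      have c2 : p.2 = ∅ := Finset.card_eq_zero.mp (by omega)
      rw [c1, c2] at ep
      have ep' : 2 • a i = 2 • a b := add_right_cancel ep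
      apply h4
      have : (2 * 2) • a i = (2 * 2) • a b := by rw [mul_smul, mul_smul, ep']
      exact this
    · intro p hp hq
      obtain ⟨-, -, -, ep⟩ := mem_Fam.mp hp
      obtain ⟨-, -, -, eq⟩ := mem_Fam.mp hq
      apply h4
      have e : (2 • a i + sg a p.2) + (2 • a i + sg a p.1) =
          (2 • a b + sg a p.1) + (2 • a b + sg a p.2) := by rw [ep]; rw [eq]
      have e2 : 4 • a i + (sg a p.2 + sg a p.1) = 4 • a b + (sg a p.2 + sg a p.1) := by
        calc _ = (2 • a i + sg a p.2) + (2 • a i + sg a p.1) := by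
              rw [show (4 : ℕ) = 2 + 2 from rfl, add_smul]; abel
          _ = (2 • a b + sg a p.1) + (2 • a b + sg a p.2) := e
          _ = _ := by rw [show (4 : ℕ) = 2 + 2 from rfl, add_smul]; abel
      exact add_right_cancel e2
  have h6 : (0 : ℚ) ≤ 2 ^ (Fintype.card ι - 2) := by positivity
  calc ((HS a i b).card : ℚ) ≤ _ := h3
    _ ≤ 2 ^ (Fintype.card ι - 2) * (3 / 8) := mul_le_mul_of_nonneg_left h5 h6
    _ = _ := by ring

/-- The number of coincidences as a sum over pairs of indices. -/
theorem sum_Hs (a : ι → G) :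
    ∑ p ∈ Pr ι, (Hs a p.1 p.2).card = ∑ i : ι, ∑ b ∈ univ.erase i, (HS a i b).card := by
  classical
  have h1 : ∀ p ∈ Pr ι, (Hs a p.1 p.2).card =
      ∑ b : ι, if b ∈ Hs a p.1 p.2 then 1 else 0 := by
    intro p _
    rw [Finset.sum_ite_mem, Finset.univ_inter, Finset.sum_const, smul_eq_mul, mul_one]
  rw [Finset.sum_congr rfl h1]
  have h2 : ∑ p ∈ Pr ι, ∑ b : ι, (if b ∈ Hs a p.1 p.2 then 1 else 0) =
      ∑ i : ι, ∑ S : Finset ι, ∑ b : ι, if i ∈ S ∧ b ∈ Hs a S i then 1 else 0 := by
    unfold Pr
    rw [Finset.sum_filter, Fintype.sum_prod_type, Finset.sum_comm]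
    refine Finset.sum_congr rfl fun i _ => Finset.sum_congr rfl fun S _ => ?_
    by_cases hi : i ∈ S
    · simp [hi]
    · simp [hi]
  rw [h2]
  refine Finset.sum_congr rfl fun i _ => ?_
  rw [Finset.sum_comm]
  have h3 : ∀ b : ι, ∑ S : Finset ι, (if i ∈ S ∧ b ∈ Hs a S i then 1 else 0) =
      (HS a i b).card := by
    intro b
    unfold HS
    rw [Finset.card_filter]
  rw [Finset.sum_congr rfl fun b _ => h3 b, ← Finset.add_sum_erase _ _ (Finset.mem_univ i)]
  have h4 : (HS a i i).card = 0 := by
    rw [Finset.card_eq_zero, Finset.eq_empty_iff_forall_notMem]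
    intro S hS
    rw [mem_HS, mem_Hs] at hS
    exact hS.2.1 hS.1
  rw [h4, zero_add]

/-- **Total number of coincidences.** -/
theorem sum_Hs_le [DecidableEq G] {a : ι → G} (hV : Vd a)
    (h4 : ∀ i, (univ.filter fun b => 4 • a b = 4 • a i).card ≤ 4) :
    ((∑ p ∈ Pr ι, (Hs a p.1 p.2).card : ℕ) : ℚ) ≤
      (3 / 8 * (Fintype.card ι : ℚ) ^ 2 + 4 * Fintype.card ι) * 2 ^ (Fintype.card ι - 2) := by
  classical
  rw [sum_Hs]
  push_cast
  have h1 : ∀ i : ι, ∑ b ∈ univ.erase i, ((HS a i b).card : ℚ) ≤
      (3 / 8 * Fintype.card ι + 4) * 2 ^ (Fintype.card ι - 2) := by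
    intro i
    have h2 : ∀ b ∈ univ.erase i, ((HS a i b).card : ℚ) ≤
        3 / 8 * 2 ^ (Fintype.card ι - 2) +
          (if 4 • a b = 4 • a i then 1 else 0) * 2 ^ (Fintype.card ι - 2) := by
      intro b hb
      rw [Finset.mem_erase] at hb
      by_cases h5 : 4 • a b = 4 • a i
      · rw [if_pos h5, one_mul]
        have h6 : ((HS a i b).card : ℚ) ≤ 2 ^ (Fintype.card ι - 2) := by
          exact_mod_cast HS_card_le (Ne.symm hb.1)
        have h7 : (0 : ℚ) ≤ 3 / 8 * 2 ^ (Fintype.card ι - 2) := by positivity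
        linarith
      · rw [if_neg h5, zero_mul, add_zero]
        exact HS_card_three hV (fun h => h5 h.symm)
    refine (Finset.sum_le_sum h2).trans ?_
    rw [Finset.sum_add_distrib, Finset.sum_const, nsmul_eq_mul, ← Finset.sum_mul]
    have h8 : ((univ.erase i).card : ℚ) ≤ Fintype.card ι := by
      exact_mod_cast Finset.card_le_univ _
    have h9 : ∑ b ∈ univ.erase i, (if 4 • a b = 4 • a i then (1 : ℚ) else 0) ≤ 4 := by
      calc ∑ b ∈ univ.erase i, (if 4 • a b = 4 • a i then (1 : ℚ) else 0) ≤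
          ∑ b : ι, (if 4 • a b = 4 • a i then (1 : ℚ) else 0) := by
            refine Finset.sum_le_sum_of_subset_of_nonneg (Finset.erase_subset _ _) ?_
            intro b _ _
            split_ifs <;> norm_num
        _ = ((univ.filter fun b => 4 • a b = 4 • a i).card : ℚ) := by
            rw [Finset.card_filter]
            push_cast
            rfl
        _ ≤ 4 := by exact_mod_cast h4 i
    have h6 : (0 : ℚ) ≤ 2 ^ (Fintype.card ι - 2) := by positivity
    have h10 := mul_le_mul_of_nonneg_right h8 (mul_nonneg (show (0:ℚ) ≤ 3/8 by norm_num) h6)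
    have h11 := mul_le_mul_of_nonneg_right h9 h6
    linarith
  calc ∑ i : ι, ∑ b ∈ univ.erase i, ((HS a i b).card : ℚ) ≤
      ∑ _i : ι, (3 / 8 * (Fintype.card ι : ℚ) + 4) * 2 ^ (Fintype.card ι - 2) :=
        Finset.sum_le_sum fun i _ => h1 i
    _ = _ := by
      rw [Finset.sum_const, nsmul_eq_mul, Finset.card_univ]
      ring

end Pool.Agent.Work.MP_2a6590_nt.H97
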